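import Pool.Agent.H13.RCQ.A2N

/-!
# Project RCQ, module A2F
-/

set_option autoImplicit false

namespace Pool.Agent.H13.RCQ.A2F

open Pool.Agent.H39.RC Pool.Agent.H6.RCQ Pool.Agent.H13.RCQ.A2N
open Classical

variable {V : Type} {G : SimpleGraph V} {R : Finset V} {x y : V} {lab : V → V → Fin 2}

/-- the labels of private neighbours are constant if there is a far common neighbour -/
lemma labels (af : AFStmt) (hc : CA 2 G lab R x y) {f : V} (hf : f ∈ FF G R x y) :
    ∃ k m : Fin 2, k ≠ lab x f ∧ m ≠ lab y f ∧ (∀ b ∈ PB G R x y, lab x b = k) ∧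
      (∀ e ∈ PB G R y x, lab y e = m) := by
  obtain ⟨k, hk⟩ : ∃ k : Fin 2, k ≠ lab x f := exists_ne _
  obtain ⟨m, hm⟩ : ∃ m : Fin 2, m ≠ lab y f := exists_ne _
  have h := af V G 2 lab R x y hc f hf
  exact ⟨k, m, hk, hm, fun b hb => fin2_eq (h.1 b hb).symm hk,
    fun e he => fin2_eq (h.2 e he).symm hm⟩

/-- all far common neighbours lie in one cell -/
lemma cell (af : AFStmt) (hc : CA 2 G lab R x y) {f f' : V} (hf : f ∈ FF G R x y)
    (hf' : f' ∈ FF G R x y) {b e : V} (hb : b ∈ PB G R x y) (he : e ∈ PB G R y x) :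
    lab x f = lab x f' ∧ lab y f = lab y f' := by
  have h := af V G 2 lab R x y hc f hf
  have h' := af V G 2 lab R x y hc f' hf'
  exact ⟨fin2_eq (h.1 b hb) (h'.1 b hb), fin2_eq (h.2 e he) (h'.2 e he)⟩

lemma ff_le (af : AFStmt) (ae : AEStmt) (hc : CA 2 G lab R x y) {b e : V}
    (hb : b ∈ PB G R x y) (he : e ∈ PB G R y x) : (FF G R x y).card ≤ 3 :=
  ae V G 2 lab R x y hc (FF G R x y) (Or.inl (fun _ h => h))
    (fun _ ha _ ha' => cell af hc ha ha' hb he)

/-- a near common neighbour has the label of the private neighbours at `x` or at `y` -/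
lemma near_lab (af : AFStmt) (ae : AEStmt) (hc : CA 2 G lab R x y) {b e : V}
    (hb : b ∈ PB G R x y) (he : e ∈ PB G R y x) (h3 : (FF G R x y).card = 3)
    (h6 : 6 ≤ (CN G R x y).card) {k m : Fin 2} (hk : ∀ b ∈ PB G R x y, lab x b = k)
    (hm : ∀ e ∈ PB G R y x, lab y e = m) {a : V} (ha : a ∈ NN G R x y) :
    lab x a = k ∨ lab y a = m := by
  by_contra hcon
  rw [not_or] at hcon
  have haF : a ∉ FF G R x y := fun h => (Finset.mem_sdiff.mp h).2 ha
  have hfx : ∀ f ∈ FF G R x y, lab x f ≠ k ∧ lab y f ≠ m := by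
    intro f hf
    have h := af V G 2 lab R x y hc f hf
    rw [← hk b hb, ← hm e he]
    exact ⟨h.1 b hb, h.2 e he⟩
  have hall : ∀ f ∈ insert a (FF G R x y), lab x f ≠ k ∧ lab y f ≠ m := by
    intro f hf
    rcases Finset.mem_insert.mp hf with rfl | hf
    · exact hcon
    · exact hfx f hf
  have hsub : insert a (FF G R x y) ⊆ CN G R x y := by
    intro f hf
    rcases Finset.mem_insert.mp hf with rfl | hf
    · exact nn_sub ha
    · exact ff_sub hf
  have := ae V G 2 lab R x y hc (insert a (FF G R x y)) (Or.inr ⟨hsub, h6⟩)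
    (fun u hu v hv => ⟨fin2_eq (hall u hu).1 (hall v hv).1,
      fin2_eq (hall u hu).2 (hall v hv).2⟩)
  rw [Finset.card_insert_of_notMem haF] at this
  omega

/-- if `c` is the only attached neighbour of the unattached `a`, then all private neighbours of
`x`, or all private neighbours of `y`, are adjacent to `c` -/
lemma all_adj (af : AFStmt) (ae : AEStmt) (hc : CA 2 G lab R x y) {b e : V}
    (hb : b ∈ PB G R x y) (he : e ∈ PB G R y x) (h3 : (FF G R x y).card = 3)
    (h6 : 6 ≤ (CN G R x y).card) {k m : Fin 2} (hk : ∀ b ∈ PB G R x y, lab x b = k)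
    (hm : ∀ e ∈ PB G R y x, lab y e = m) {a c : V} (ha : a ∈ NN G R x y)
    (hap : a ∉ PP G R x y) (hac : ∀ c' ∈ PP G R x y, G.Adj a c' → c' = c) :
    (∀ b ∈ PB G R x y, G.Adj b c) ∨ (∀ e ∈ PB G R y x, G.Adj e c) := by
  have hac' := nn_sub ha
  rcases near_lab af ae hc hb he h3 h6 hk hm ha with h | h
  · left
    intro b' hb'
    rcases link_b hc hb' hac' (fun h' => hap (mem_pp_of_at (Or.inl hb') hac' h')) with
      h1 | ⟨d, hd, h1, h2⟩
    · exact absurd ((hk b' hb').trans h.symm) h1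
    · rw [← hac d (mem_pp_of_at (Or.inl hb') hd (at_adj (pb_nx hb') h1)) h2.symm]
      exact h1
  · right
    intro b' hb'
    rcases link_e hc hb' hac' (fun h' => hap (mem_pp_of_at (Or.inr hb') hac' h')) with
      h1 | ⟨d, hd, h1, h2⟩
    · exact absurd ((hm b' hb').trans h.symm) h1
    · rw [← hac d (mem_pp_of_at (Or.inr hb') hd (at_adj (pb_nx' hb') h1)) h2.symm]
      exact h1

/-- the dominating private neighbour is attached to all attached common neighbours -/
lemma dom_at {g : V} (hg : g ∈ PB G R x y ∪ PB G R y x)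
    (hga : ∀ w ∈ PB G R x y ∪ PB G R y x, w ≠ g → G.Adj g w) {a : V}
    (ha : a ∈ PP G R x y) : At G R x y g a := by
  obtain ⟨w, hw, h⟩ := pp_at ha
  by_cases hwg : w = g
  · rw [← hwg]
    exact h
  · have hw' : w ∈ PB G R x y ∪ PB G R y x := Finset.mem_union.mpr hw
    exact (at_iff (Finset.mem_union.mp hg) hw (hga w hw' hwg)).mpr h

theorem a2f (pe2 : PE2Stmt) (pe4 : PE4Stmt) (akey : AKEYStmt) (af : AFStmt) (ae : AEStmt)
    (al : ALStmt) (ak : AKStmt) (ac : ACStmt) (ab : ABStmt) : A2FStmt := by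
  intro V G lab R x y hc hT hne
  obtain ⟨hN5, a1, a2, a3, hP, h12, h13, h23, e12, e23, hw, _⟩ := hT
  obtain ⟨f, hf⟩ := hne
  have hpg := hc.cfg.pg
  obtain ⟨hB2, hE2⟩ := ab V G 2 lab R x y hc
  obtain ⟨b0, hb0, b1, hb1, hb01⟩ := Finset.one_lt_card.mp (show 1 < (PB G R x y).card by omega)
  obtain ⟨e0, he0, e1, he1, he01⟩ := Finset.one_lt_card.mp (show 1 < (PB G R y x).card by omega)
  obtain ⟨k, m, _, _, hk, hm⟩ := labels af hc hf
  have hF3 := ff_le af ae hc hb0 he0
  have hBk : (PB G R x y).filter (fun b => lab x b = k) = PB G R x y :=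
    Finset.filter_eq_self.mpr hk
  have hEm : (PB G R y x).filter (fun e => lab y e = m) = PB G R y x :=
    Finset.filter_eq_self.mpr hm
  have hkey := akey V G 2 lab R x y hc k m
  rw [hBk, hEm] at hkey
  have hR := (ac V G 2 lab R x y hc).2
  rw [hc.card] at hR
  have i1 := ir_le (R := R) x
  have i2 := ir_le (R := R) y
  have hcn := cn_card (G := G) (R := R) (x := x) (y := y)
  have hPP1 : a1 ∈ PP G R x y := by rw [hP]; simp
  have hPP2 : a2 ∈ PP G R x y := by rw [hP]; simp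
  have hPP3 : a3 ∈ PP G R x y := by rw [hP]; simp
  have hc1 := pp_sub hPP1
  have hc2 := pp_sub hPP2
  have hc3 := pp_sub hPP3
  have hne7 : (PB G R x y).card + (PB G R y x).card ≠ 7 := by
    intro h7
    obtain ⟨g, hg, hga⟩ := hkey.2 h7
    exact (hw g (Finset.mem_union.mp hg)).2 ⟨dom_at hg hga hPP1, dom_at hg hga hPP3⟩
  have hkey1 := hkey.1
  have hNN : (NN G R x y).card = 5 := by omega
  have hFF : (FF G R x y).card = 3 := by omega
  have h6 : 6 ≤ (CN G R x y).card := by omega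
  -- the two other near elements
  have hPc : (PP G R x y).card = 3 := by
    rw [hP]
    exact Finset.card_eq_three.mpr ⟨a1, a2, a3, h12, h13, h23, rfl⟩
  have hPs : PP G R x y ⊆ NN G R x y := fun a h => pp_nn h
  have hsd := Finset.card_sdiff_add_card_eq_card hPs
  obtain ⟨u, hu, v, hv, huv⟩ := Finset.one_lt_card.mp
    (show 1 < ((NN G R x y) \ (PP G R x y)).card by omega)
  have hO := fun (a : V) (ha : a ∈ (NN G R x y) \ (PP G R x y)) =>
    nn_other pe2 pe4 hpg hc.ne hc.five hP h12 h13 h23 e12 e23 (a := a)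
      (Finset.mem_sdiff.mp ha).1 (Finset.mem_sdiff.mp ha).2
  have hne2 : ∀ a ∈ (NN G R x y) \ (PP G R x y), a ≠ a2 := by
    rintro a ha rfl
    exact (Finset.mem_sdiff.mp ha).2 hPP2
  have hsc : ∀ a ∈ (NN G R x y) \ (PP G R x y), a ∈ CN G R x y := fun a ha =>
    nn_sub (Finset.mem_sdiff.mp ha).1
  -- one is adjacent to `a1`, the other to `a3`
  obtain ⟨a0, a4, h0, h4, h01, h43⟩ : ∃ a0 a4, a0 ∈ (NN G R x y) \ (PP G R x y) ∧
      a4 ∈ (NN G R x y) \ (PP G R x y) ∧ G.Adj a0 a1 ∧ G.Adj a4 a3 := by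
    rcases (hO u hu).2.1 with h | h
    · rcases (hO v hv).2.1 with h' | h'
      · exact (nn_one pe2 hpg hc.ne e12 (hsc u hu) (hsc v hv) (hne2 u hu) (hne2 v hv)
          huv h h').elim
      · exact ⟨u, v, hu, hv, h, h'⟩
    · rcases (hO v hv).2.1 with h' | h'
      · exact ⟨v, u, hv, hu, h', h⟩
      · exact (nn_one pe2 hpg hc.ne (ej_symm e23) (hsc u hu) (hsc v hv) (hne2 u hu) (hne2 v hv)
          huv h h').elim
  have c1 : ∀ c' ∈ PP G R x y, G.Adj a0 c' → c' = a1 := by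
    intro c' hc' h
    rw [hP] at hc'
    simp only [Finset.mem_insert, Finset.mem_singleton] at hc'
    rcases hc' with rfl | rfl | rfl
    · rfl
    · exact absurd h (hO a0 h0).1
    · exact absurd ⟨h01, h⟩ (hO a0 h0).2.2
  have c3 : ∀ c' ∈ PP G R x y, G.Adj a4 c' → c' = a3 := by
    intro c' hc' h
    rw [hP] at hc'
    simp only [Finset.mem_insert, Finset.mem_singleton] at hc'
    rcases hc' with rfl | rfl | rfl
    · exact absurd ⟨h, h43⟩ (hO a4 h4).2.2
    · exact absurd h (hO a4 h4).1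
    · rfl
  have r1 := all_adj af ae hc hb0 he0 hFF h6 hk hm (Finset.mem_sdiff.mp h0).1
    (Finset.mem_sdiff.mp h0).2 c1
  have r3 := all_adj af ae hc hb0 he0 hFF h6 hk hm (Finset.mem_sdiff.mp h4).1
    (Finset.mem_sdiff.mp h4).2 c3
  -- a private neighbour of `x` adjacent to `a1` or `a3` (and one of `y` to the other) sees `a2`
  have hmid : ∀ b ∈ PB G R x y, (At G R x y b a1 ∧ At G R x y e0 a3) ∨
      (At G R x y b a3 ∧ At G R x y e0 a1) → G.Adj b a2 := by
    intro b hb hh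
    have hwb := (hw b (Or.inl hb)).2
    have hwe := (hw e0 (Or.inr he0)).2
    rcases al V G 2 lab R x y hc b hb e0 he0 with h | ⟨h, hh', h1, h2, h3, h4⟩
    · exfalso
      rcases hh with ⟨p1, p2⟩ | ⟨p1, p2⟩
      · exact hwb ⟨p1, (h a3).mpr p2⟩
      · exact hwb ⟨(h a1).mpr p2, p1⟩
    · have := mem_pp_of_at (Or.inl hb) hh' h3
      rw [hP] at this
      simp only [Finset.mem_insert, Finset.mem_singleton] at this
      rcases this with rfl | rfl | rfl
      · exfalso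
        rcases hh with ⟨p1, p2⟩ | ⟨p1, p2⟩
        · exact hwe ⟨h4, p2⟩
        · exact hwb ⟨h3, p1⟩
      · exact h1
      · exfalso
        rcases hh with ⟨p1, p2⟩ | ⟨p1, p2⟩
        · exact hwb ⟨p1, h3⟩
        · exact hwe ⟨p2, h4⟩
  rcases r1 with r1 | r1
  · rcases r3 with r3 | r3
    · exact (hw b0 (Or.inl hb0)).2 ⟨at_adj (pb_nx hb0) (r1 b0 hb0), at_adj (pb_nx hb0) (r3 b0 hb0)⟩
    · have q : ∀ b ∈ PB G R x y, G.Adj b a2 := fun b hb => hmid b hb
        (Or.inl ⟨at_adj (pb_nx hb) (r1 b hb), at_adj (pb_nx' he0) (r3 e0 he0)⟩)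
      exact ak V G 2 lab R x y hc a1 hc1 a2 hc2 h12 b0 hb0 b1 hb1 hb01 (r1 b0 hb0) (q b0 hb0)
        (r1 b1 hb1) (q b1 hb1)
  · rcases r3 with r3 | r3
    · have q : ∀ b ∈ PB G R x y, G.Adj b a2 := fun b hb => hmid b hb
        (Or.inr ⟨at_adj (pb_nx hb) (r3 b hb), at_adj (pb_nx' he0) (r1 e0 he0)⟩)
      exact ak V G 2 lab R x y hc a3 hc3 a2 hc2 h23.symm b0 hb0 b1 hb1 hb01 (r3 b0 hb0) (q b0 hb0)
        (r3 b1 hb1) (q b1 hb1)
    · exact (hw e0 (Or.inr he0)).2 ⟨at_adj (pb_nx' he0) (r1 e0 he0),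
        at_adj (pb_nx' he0) (r3 e0 he0)⟩

end Pool.Agent.H13.RCQ.A2F
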