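import Pool.Agent.H13.RCQ.A2F

/-!
# Project RCQ, module A2I
-/

set_option autoImplicit false

namespace Pool.Agent.H13.RCQ.A2I

open Pool.Agent.H39.RC Pool.Agent.H6.RCQ Pool.Agent.H13.RCQ.A2N Pool.Agent.H13.RCQ.A2F
open Classical

variable {V : Type} {G : SimpleGraph V} {R : Finset V} {x y : V} {lab : V → V → Fin 2}

/-- `K₃,₃` with one class containing a pair -/
lemma k33_pair (h : PG G) {a b c d e f f' : V} (hab : a ≠ b) (hac : a ≠ c) (hbc : b ≠ c)
    (hde : d ≠ e) (hdf : d ≠ f) (hdf' : d ≠ f') (hef : e ≠ f) (hef' : e ≠ f')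
    (haf' : a ≠ f') (hcf' : c ≠ f') (hbf : b ≠ f)
    (ad : G.Adj a d) (ae : G.Adj a e) (af : G.Adj a f)
    (bd : G.Adj b d) (be : G.Adj b e) (bf : G.Adj b f')
    (cd : G.Adj c d) (ce : G.Adj c e) (cf : G.Adj c f) (ff : G.Adj f f') : False := by
  apply h.k33
  refine hasMinor_k33 ![{a}, {b}, {c}] ![{d}, {e}, {f, f'}] ?_ ?_ ?_ ?_ ?_ ?_
  · intro i
    fin_cases i
    · exact con_single a
    · exact con_single b
    · exact con_single c
  · intro i
    fin_cases i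
    · exact con_single d
    · exact con_single e
    · exact con_pair (Or.inr ff)
  · intro i j hij
    fin_cases i <;> fin_cases j <;> simp at hij ⊢
    · exact hab
    · exact hac
    · exact hbc
  · intro i j hij
    fin_cases i <;> fin_cases j <;> simp at hij ⊢
    · exact hde
    · exact ⟨hdf, hdf'⟩
    · exact ⟨hef, hef'⟩
  · intro i j
    fin_cases i <;> fin_cases j
    · simpa using ad.ne
    · simpa using ae.ne
    · simpa using ⟨af.ne, haf'⟩
    · simpa using bd.ne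
    · simpa using be.ne
    · simpa using ⟨hbf, bf.ne⟩
    · simpa using cd.ne
    · simpa using ce.ne
    · simpa using ⟨cf.ne, hcf'⟩
  · intro i j
    fin_cases i <;> fin_cases j
    · exact ⟨a, rfl, d, rfl, ad⟩
    · exact ⟨a, rfl, e, rfl, ae⟩
    · exact ⟨a, rfl, f, Or.inl rfl, af⟩
    · exact ⟨b, rfl, d, rfl, bd⟩
    · exact ⟨b, rfl, e, rfl, be⟩
    · exact ⟨b, rfl, f', Or.inr rfl, bf⟩
    · exact ⟨c, rfl, d, rfl, cd⟩
    · exact ⟨c, rfl, e, rfl, ce⟩
    · exact ⟨c, rfl, f, Or.inl rfl, cf⟩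

/-- the final configuration: `g ∈ B` is adjacent to two elements of `E`, which are adjacent to a
common neighbour `c` -/
lemma fin1 (h : PG G) (hxy : x ≠ y) {g c f e e' : V} (hg : g ∈ PB G R x y)
    (hc : c ∈ CN G R x y) (hf : f ∈ CN G R x y) (hcf : c ≠ f) (he : e ∈ PB G R y x)
    (he' : e' ∈ PB G R y x) (hee : e ≠ e') (h1 : G.Adj g e) (h2 : G.Adj g e')
    (h3 : G.Adj e c) (h4 : G.Adj e' c) : False := by
  have hgx := pb_nx hg
  have hex := pb_nx' he
  have hex' := pb_nx' he'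
  rw [mem_x] at hgx hex hex'
  rw [not_or, not_or] at hgx hex hex'
  have hg' := mem_pb.mp hg
  have hc' := mem_cn.mp hc
  have hf' := mem_cn.mp hf
  have he1 := mem_pb.mp he
  have he2 := mem_pb.mp he'
  exact k33_pair h (a := g) (b := y) (c := c) (d := e) (e := e') (f := x) (f' := f)
    hgx.2.1 (fun h => hgx.2.2 (h ▸ hc)) hc'.2.2.ne hee hex.1 (fun h => hex.2.2 (h ▸ hf))
    hex'.1 (fun h => hex'.2.2 (h ▸ hf)) (fun h => hgx.2.2 (h ▸ hf)) hcf hxy.symm
    h1 h2 hg'.2.1.symm he1.2.1 he2.2.1 hf'.2.2 h3.symm h4.symm hc'.2.1.symm hf'.2.1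

theorem a2i (as : ASStmt) (pe2 : PE2Stmt) (pe3 : PE3Stmt) (akey : AKEYStmt) (af : AFStmt)
    (ae : AEStmt) (ak : AKStmt) (ac : ACStmt) (ab : ABStmt) : A2IStmt := by
  intro V G lab R x y hc hT
  obtain ⟨hP2, hN4, hP1⟩ := hT
  have hpg := hc.cfg.pg
  have hpol := pol_cn (G := G) (R := R) hc.ne
  have hcn := cn_card (G := G) (R := R) (x := x) (y := y)
  have hfive := hc.five
  obtain ⟨f, hf⟩ : (FF G R x y).Nonempty := by
    rw [← Finset.card_pos]
    omega
  obtain ⟨hB2, hE2⟩ := ab V G 2 lab R x y hc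
  obtain ⟨b0, hb0, b1, hb1, hb01⟩ := Finset.one_lt_card.mp (show 1 < (PB G R x y).card by omega)
  obtain ⟨e0, he0, e1, he1, he01⟩ := Finset.one_lt_card.mp (show 1 < (PB G R y x).card by omega)
  obtain ⟨k, m, _, _, hk, hm⟩ := labels af hc hf
  have hF3 := ff_le af ae hc hb0 he0
  have hBk : (PB G R x y).filter (fun b => lab x b = k) = PB G R x y :=
    Finset.filter_eq_self.mpr hk
  have hEm : (PB G R y x).filter (fun e => lab y e = m) = PB G R y x :=
    Finset.filter_eq_self.mpr hm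
  have hkey := akey V G 2 lab R x y hc k m
  rw [hBk, hEm] at hkey
  have hR := (ac V G 2 lab R x y hc).2
  rw [hc.card] at hR
  have i1 := ir_le (R := R) x
  have i2 := ir_le (R := R) y
  have hkey1 := hkey.1
  have h7 : (PB G R x y).card + (PB G R y x).card = 3 * 2 + 1 := by omega
  have hNN : (NN G R x y).card = 4 := by omega
  have hFF : (FF G R x y).card = 3 := by omega
  have h6 : 6 ≤ (CN G R x y).card := by omega
  have hPP : (PP G R x y).card = 2 := by
    by_contra hne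
    have := hP1 (by omega)
    omega
  obtain ⟨g, hg, hga⟩ := hkey.2 h7
  obtain ⟨a1, a2, h12, hP⟩ := Finset.card_eq_two.mp hPP
  have hPP1 : a1 ∈ PP G R x y := by rw [hP]; simp
  have hPP2 : a2 ∈ PP G R x y := by rw [hP]; simp
  have hc1 := pp_sub hPP1
  have hc2 := pp_sub hPP2
  have e12 : EJ G {x} {y} (CN G R x y) a1 a2 :=
    ⟨hc1, hc2, h12, Or.inr ⟨g, dom_at hg hga hPP1, dom_at hg hga hPP2⟩⟩
  -- the two other near elements
  have hPs : PP G R x y ⊆ NN G R x y := fun a h => pp_nn h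
  have hsd := Finset.card_sdiff_add_card_eq_card hPs
  obtain ⟨u, hu, v, hv, huv⟩ := Finset.one_lt_card.mp
    (show 1 < ((NN G R x y) \ (PP G R x y)).card by omega)
  have hsc : ∀ a ∈ (NN G R x y) \ (PP G R x y), a ∈ CN G R x y := fun a ha =>
    nn_sub (Finset.mem_sdiff.mp ha).1
  have hne1 : ∀ a ∈ (NN G R x y) \ (PP G R x y), a ≠ a1 := by
    rintro a ha rfl
    exact (Finset.mem_sdiff.mp ha).2 hPP1
  have hne2 : ∀ a ∈ (NN G R x y) \ (PP G R x y), a ≠ a2 := by
    rintro a ha rfl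
    exact (Finset.mem_sdiff.mp ha).2 hPP2
  have hO : ∀ a ∈ (NN G R x y) \ (PP G R x y), (G.Adj a a1 ∨ G.Adj a a2) ∧
      ¬ (G.Adj a a1 ∧ G.Adj a a2) := by
    intro a ha
    constructor
    · obtain ⟨a', h1, h2⟩ := nn_adj (Finset.mem_sdiff.mp ha).1 (Finset.mem_sdiff.mp ha).2
      rw [hP] at h1
      simp only [Finset.mem_insert, Finset.mem_singleton] at h1
      rcases h1 with rfl | rfl
      · exact Or.inl h2
      · exact Or.inr h2
    · rintro ⟨h1, h2⟩
      exact pe3 V G {x} {y} _ hpg hpol (Or.inr (by omega)) a a1 a2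
        (ej_of_adj (hsc a ha) hc1 h1) e12 (ej_of_adj hc2 (hsc a ha) h2.symm)
  obtain ⟨a0, a3, h0, h3, h01, h32⟩ : ∃ a0 a3, a0 ∈ (NN G R x y) \ (PP G R x y) ∧
      a3 ∈ (NN G R x y) \ (PP G R x y) ∧ G.Adj a0 a1 ∧ G.Adj a3 a2 := by
    rcases (hO u hu).1 with h | h
    · rcases (hO v hv).1 with h' | h'
      · exact (nn_one pe2 hpg hc.ne e12 (hsc u hu) (hsc v hv) (hne2 u hu) (hne2 v hv)
          huv h h').elim
      · exact ⟨u, v, hu, hv, h, h'⟩
    · rcases (hO v hv).1 with h' | h'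
      · exact ⟨v, u, hv, hu, h', h⟩
      · exact (nn_one pe2 hpg hc.ne (ej_symm e12) (hsc u hu) (hsc v hv) (hne1 u hu) (hne1 v hv)
          huv h h').elim
  have c1 : ∀ c' ∈ PP G R x y, G.Adj a0 c' → c' = a1 := by
    intro c' hc' h
    rw [hP] at hc'
    simp only [Finset.mem_insert, Finset.mem_singleton] at hc'
    rcases hc' with rfl | rfl
    · rfl
    · exact absurd ⟨h01, h⟩ (hO a0 h0).2
  have c2 : ∀ c' ∈ PP G R x y, G.Adj a3 c' → c' = a2 := by
    intro c' hc' h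
    rw [hP] at hc'
    simp only [Finset.mem_insert, Finset.mem_singleton] at hc'
    rcases hc' with rfl | rfl
    · exact absurd ⟨h, h32⟩ (hO a3 h3).2
    · rfl
  have r1 := all_adj af ae hc hb0 he0 hFF h6 hk hm (Finset.mem_sdiff.mp h0).1
    (Finset.mem_sdiff.mp h0).2 c1
  have r2 := all_adj af ae hc hb0 he0 hFF h6 hk hm (Finset.mem_sdiff.mp h3).1
    (Finset.mem_sdiff.mp h3).2 c2
  obtain ⟨hc', hs1, _⟩ := as V G 2 lab R x y hc
  have hfc := ff_sub hf
  have hf1 : a1 ≠ f := by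
    rintro rfl
    exact (Finset.mem_sdiff.mp hf).2 (pp_nn hPP1)
  have hf2 : a2 ≠ f := by
    rintro rfl
    exact (Finset.mem_sdiff.mp hf).2 (pp_nn hPP2)
  -- one of the two sides is adjacent to `c`, the other to `d`
  have main : ∀ c d, c ∈ CN G R x y → d ∈ CN G R x y → c ≠ f → d ≠ f →
      (∀ b ∈ PB G R x y, G.Adj b c) → (∀ e ∈ PB G R y x, G.Adj e d) → False := by
    intro c d hcc hdc hcf hdf hbc hed
    rcases Finset.mem_union.mp hg with hgB | hgE
    · have hge : ∀ e ∈ PB G R y x, G.Adj g e := by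
        intro e he
        refine hga e (Finset.mem_union_right _ he) ?_
        rintro rfl
        exact (mem_pb.mp he).2.2.1 (mem_pb.mp hgB).2.1
      exact fin1 hpg hc.ne hgB hdc hfc hdf he0 he1 he01 (hge e0 he0) (hge e1 he1) (hed e0 he0)
        (hed e1 he1)
    · have hge : ∀ e ∈ PB G R x y, G.Adj g e := by
        intro e he
        refine hga e (Finset.mem_union_left _ he) ?_
        rintro rfl
        exact (mem_pb.mp he).2.2.1 (mem_pb.mp hgE).2.1
      exact fin1 hpg hc.ne.symm hgE (hs1 ▸ hcc) (hs1 ▸ hfc) hcf hb0 hb1 hb01 (hge b0 hb0)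
        (hge b1 hb1) (hbc b0 hb0) (hbc b1 hb1)
  rcases r1 with r1 | r1
  · rcases r2 with r2 | r2
    · exact ak V G 2 lab R x y hc a1 hc1 a2 hc2 h12 b0 hb0 b1 hb1 hb01 (r1 b0 hb0) (r2 b0 hb0)
        (r1 b1 hb1) (r2 b1 hb1)
    · exact main a1 a2 hc1 hc2 hf1 hf2 r1 r2
  · rcases r2 with r2 | r2
    · exact main a2 a1 hc2 hc1 hf2 hf1 r2 r1
    · exact ak V G 2 lab R y x hc' a1 (hs1 ▸ hc1) a2 (hs1 ▸ hc2) h12 e0 he0 e1 he1 he01
        (r1 e0 he0) (r2 e0 he0) (r1 e1 he1) (r2 e1 he1)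

end Pool.Agent.H13.RCQ.A2I
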