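import Pool.Agent.H13.RCQ.Aux13

/-!
# Project RCQ, module A2N
-/

set_option autoImplicit false

namespace Pool.Agent.H13.RCQ.A2N

open Pool.Agent.H39.RC Pool.Agent.H6.RCQ
open Classical

variable {V : Type} {G : SimpleGraph V} {R : Finset V} {x y : V} {lab : V → V → Fin 2}

/-- other near common neighbours are adjacent to exactly one end of the attached path -/
lemma nn_other (pe2 : PE2Stmt) (pe4 : PE4Stmt) (hpg : PG G) (hxy : x ≠ y)
    (h5 : 5 ≤ (CN G R x y).card) {a1 a2 a3 : V}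
    (hP : PP G R x y = {a1, a2, a3}) (h12 : a1 ≠ a2) (h13 : a1 ≠ a3) (h23 : a2 ≠ a3)
    (e12 : EJ G {x} {y} (CN G R x y) a1 a2) (e23 : EJ G {x} {y} (CN G R x y) a2 a3)
    {a : V} (ha : a ∈ NN G R x y) (hp : a ∉ PP G R x y) :
    ¬ G.Adj a a2 ∧ (G.Adj a a1 ∨ G.Adj a a3) ∧ ¬ (G.Adj a a1 ∧ G.Adj a a3) := by
  have hpol := pol_cn (G := G) (R := R) hxy
  have hac := nn_sub ha
  have hp' : a ≠ a1 ∧ a ≠ a2 ∧ a ≠ a3 := by
    rw [hP] at hp
    simpa using hp
  have hc1 : a1 ∈ CN G R x y := pp_sub (by rw [hP]; simp)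
  have hc2 : a2 ∈ CN G R x y := pp_sub (by rw [hP]; simp)
  have hc3 : a3 ∈ CN G R x y := pp_sub (by rw [hP]; simp)
  have hn2 : ¬ G.Adj a a2 := fun h =>
    pe2 V G {x} {y} _ hpg hpol a2 a1 a3 a (ej_symm e12) e23 (ej_of_adj hc2 hac h.symm) h13
      (fun h => hp'.1 h.symm) (fun h => hp'.2.2 h.symm)
  refine ⟨hn2, ?_, ?_⟩
  · obtain ⟨a', h1, h2⟩ := nn_adj ha hp
    rw [hP] at h1
    simp only [Finset.mem_insert, Finset.mem_singleton] at h1
    rcases h1 with rfl | rfl | rfl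
    · exact Or.inl h2
    · exact absurd h2 hn2
    · exact Or.inr h2
  · rintro ⟨h1, h3⟩
    exact pe4 V G {x} {y} _ hpg hpol (Or.inr h5) a a1 a2 a3 hp'.2.1 h13
      (ej_of_adj hac hc1 h1) e12 e23 (ej_of_adj hc3 hac h3.symm)

lemma nn_one (pe2 : PE2Stmt) (hpg : PG G) (hxy : x ≠ y) {a1 a2 : V}
    (e12 : EJ G {x} {y} (CN G R x y) a1 a2)
    {u v : V} (hu : u ∈ CN G R x y) (hv : v ∈ CN G R x y) (hu2 : u ≠ a2) (hv2 : v ≠ a2)
    (huv : u ≠ v) (h1 : G.Adj u a1) (h2 : G.Adj v a1) : False :=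
  pe2 V G {x} {y} _ hpg (pol_cn (G := G) (R := R) hxy) a1 a2 u v e12
    (ej_of_adj e12.1 hu h1.symm) (ej_of_adj e12.1 hv h2.symm) hu2.symm hv2.symm huv

lemma core (pe2 : PE2Stmt) (pe4 : PE4Stmt) (akey : AKEYStmt) (al : ALStmt) (ak : AKStmt)
    (ac : ACStmt) (ab : ABStmt) (hc : CA 2 G lab R x y) (hF : FF G R x y = ∅) {a1 a2 a3 : V}
    (hP : PP G R x y = {a1, a2, a3}) (h12 : a1 ≠ a2) (h13 : a1 ≠ a3) (h23 : a2 ≠ a3)
    (e12 : EJ G {x} {y} (CN G R x y) a1 a2) (e23 : EJ G {x} {y} (CN G R x y) a2 a3)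
    (hw : ∀ w, (w ∈ PB G R x y ∨ w ∈ PB G R y x) → ¬ (At G R x y w a1 ∧ At G R x y w a3))
    (hn3 : ∀ e ∈ PB G R y x, ¬ At G R x y e a3) : False := by
  have hpg := hc.cfg.pg
  have hNA : CN G R x y = NN G R x y := by
    have := cn_eq (G := G) (R := R) (x := x) (y := y)
    rw [hF, Finset.union_empty] at this
    exact this
  have hO := fun (a : V) (ha : a ∈ CN G R x y) (hp : a ∉ PP G R x y) =>
    nn_other pe2 pe4 hpg hc.ne hc.five hP h12 h13 h23 e12 e23 (a := a) (hNA ▸ ha) hp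
  have hc2 : a2 ∈ CN G R x y := e12.2.1
  have hc3 : a3 ∈ CN G R x y := e23.2.1
  -- the set of the other elements
  have hPc : (PP G R x y).card = 3 := by
    rw [hP]
    exact Finset.card_eq_three.mpr ⟨a1, a2, a3, h12, h13, h23, rfl⟩
  have hPs : PP G R x y ⊆ CN G R x y := fun a h => pp_sub h
  have hsd := Finset.card_sdiff_add_card_eq_card hPs
  have hne2 : ∀ a, a ∉ PP G R x y → a ≠ a2 := by
    rintro a ha rfl
    exact ha (by rw [hP]; simp)
  -- at most one other element is adjacent to `a1`, at most one to `a3`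
  have hT1 : (((CN G R x y) \ (PP G R x y)).filter (fun a => G.Adj a a1)).card ≤ 1 := by
    rw [Finset.card_le_one]
    intro u hu v hv
    simp only [Finset.mem_filter, Finset.mem_sdiff] at hu hv
    by_contra huv
    exact nn_one pe2 hpg hc.ne e12 hu.1.1 hv.1.1 (hne2 u hu.1.2) (hne2 v hv.1.2) huv hu.2 hv.2
  have hT3 : (((CN G R x y) \ (PP G R x y)).filter (fun a => ¬ G.Adj a a1)).card ≤ 1 := by
    rw [Finset.card_le_one]
    intro u hu v hv
    simp only [Finset.mem_filter, Finset.mem_sdiff] at hu hv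
    by_contra huv
    have hu3 : G.Adj u a3 := ((hO u hu.1.1 hu.1.2).2.1).resolve_left hu.2
    have hv3 : G.Adj v a3 := ((hO v hv.1.1 hv.1.2).2.1).resolve_left hv.2
    exact nn_one pe2 hpg hc.ne (ej_symm e23) hu.1.1 hv.1.1 (hne2 u hu.1.2) (hne2 v hv.1.2) huv
      hu3 hv3
  have hsum := Finset.card_filter_add_card_filter_not (s := (CN G R x y) \ (PP G R x y))
    (fun a => G.Adj a a1)
  have hfive := hc.five
  obtain ⟨a4, ha4⟩ : (((CN G R x y) \ (PP G R x y)).filter (fun a => ¬ G.Adj a a1)).Nonempty := by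
    rw [← Finset.card_pos]
    omega
  simp only [Finset.mem_filter, Finset.mem_sdiff] at ha4
  obtain ⟨⟨h4c, h4p⟩, h41⟩ := ha4
  have h42 : ¬ G.Adj a4 a2 := (hO a4 h4c h4p).1
  -- a common neighbour adjacent to `a4` and to a private neighbour is `a3`
  have hmid : ∀ w, (w ∈ PB G R x y ∨ w ∈ PB G R y x) → ∀ h ∈ CN G R x y, G.Adj w h →
      G.Adj h a4 → h = a3 := by
    intro w hw' h hh h1 h2
    have : h ∈ PP G R x y := mem_pp_of_at hw' hh (at_adj (be_nx hw') h1)
    rw [hP] at this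
    simp only [Finset.mem_insert, Finset.mem_singleton] at this
    rcases this with rfl | rfl | rfl
    · exact absurd h2.symm h41
    · exact absurd h2.symm h42
    · rfl
  have hnat : ∀ w, (w ∈ PB G R x y ∨ w ∈ PB G R y x) → ¬ At G R x y w a4 := fun w hw' h =>
    h4p (mem_pp_of_at hw' h4c h)
  have hE : ∀ e ∈ PB G R y x, lab y e ≠ lab y a4 := by
    intro e he
    rcases link_e hc he h4c (hnat e (Or.inr he)) with h | ⟨h, hh, h1, h2⟩
    · exact h
    · have := hmid e (Or.inr he) h hh h1 h2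
      subst this
      exact absurd (at_adj (pb_nx' he) h1) (hn3 e he)
  obtain ⟨hB2, hE2⟩ := ab V G 2 lab R x y hc
  obtain ⟨e0, he0⟩ : (PB G R y x).Nonempty := by
    rw [← Finset.card_pos]
    omega
  have hB : ∀ b ∈ PB G R x y, lab x b = lab x a4 → G.Adj b a3 ∧ G.Adj b a2 := by
    intro b hb hl
    have hb3 : G.Adj b a3 := by
      rcases link_b hc hb h4c (hnat b (Or.inl hb)) with h | ⟨h, hh, h1, h2⟩
      · exact absurd hl h
      · have := hmid b (Or.inl hb) h hh h1 h2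
        subst this
        exact h1
    have hb3' := at_adj (pb_nx hb) hb3
    refine ⟨hb3, ?_⟩
    rcases al V G 2 lab R x y hc b hb e0 he0 with h | ⟨h, hh, h1, h2, h3, h4⟩
    · exact absurd ((h a3).mp hb3') (hn3 e0 he0)
    · have := mem_pp_of_at (Or.inl hb) hh h3
      rw [hP] at this
      simp only [Finset.mem_insert, Finset.mem_singleton] at this
      rcases this with rfl | rfl | rfl
      · exact absurd ⟨h3, hb3'⟩ (hw b (Or.inl hb))
      · exact h1
      · exact absurd h4 (hn3 e0 he0)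
  have hcard1 : ((PB G R x y).filter (fun b => lab x b = lab x a4)).card ≤ 1 := by
    rw [Finset.card_le_one]
    intro u hu v hv
    simp only [Finset.mem_filter] at hu hv
    by_contra huv
    obtain ⟨h1, h2⟩ := hB u hu.1 hu.2
    obtain ⟨h3, h4⟩ := hB v hv.1 hv.2
    exact ak V G 2 lab R x y hc a2 hc2 a3 hc3 h23 u hu.1 v hv.1 huv h2 h1 h4 h3
  obtain ⟨k, hk⟩ : ∃ k : Fin 2, k ≠ lab x a4 := exists_ne _
  obtain ⟨m, hm⟩ : ∃ m : Fin 2, m ≠ lab y a4 := exists_ne _
  have hEm : (PB G R y x).filter (fun e => lab y e = m) = PB G R y x := by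
    rw [Finset.filter_eq_self]
    exact fun e he => fin2_eq (hE e he) hm
  have hBk : ((PB G R x y).filter (fun b => ¬ lab x b = lab x a4)) ⊆
      ((PB G R x y).filter (fun b => lab x b = k)) := by
    intro b hb
    simp only [Finset.mem_filter] at hb ⊢
    exact ⟨hb.1, fin2_eq hb.2 hk⟩
  have hBk' := Finset.card_le_card hBk
  have hBs := Finset.card_filter_add_card_filter_not (s := PB G R x y)
    (fun b => lab x b = lab x a4)
  have hkey := (akey V G 2 lab R x y hc k m).1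
  rw [hEm] at hkey
  have hR := (ac V G 2 lab R x y hc).2
  rw [hc.card] at hR
  have i1 := ir_le (R := R) x
  have i2 := ir_le (R := R) y
  omega

theorem a2n (pe2 : PE2Stmt) (pe4 : PE4Stmt) (akey : AKEYStmt) (al : ALStmt) (ak : AKStmt)
    (ac : ACStmt) (ab : ABStmt) : A2NStmt := by
  intro V G lab R x y hc hF a1 a2 a3 hP h12 h13 h23 e12 e23 hw _ hb0
  obtain ⟨b0, hb0, hb2⟩ := hb0
  have hmid : ∀ e ∈ PB G R y x, (∀ a, At G R x y b0 a ↔ At G R x y e a) ∨
      (At G R x y b0 a1 ∧ At G R x y e a1) ∨ (At G R x y b0 a3 ∧ At G R x y e a3) := by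
    intro e he
    rcases al V G 2 lab R x y hc b0 hb0 e he with h | ⟨h, hh, h1, h2, h3, h4⟩
    · exact Or.inl h
    · have := mem_pp_of_at (Or.inl hb0) hh h3
      rw [hP] at this
      simp only [Finset.mem_insert, Finset.mem_singleton] at this
      rcases this with rfl | rfl | rfl
      · exact Or.inr (Or.inl ⟨h3, h4⟩)
      · exact absurd h1 hb2
      · exact Or.inr (Or.inr ⟨h3, h4⟩)
  by_cases hb3 : At G R x y b0 a3
  · -- then no `e` is attached to `a1`
    have hb1 : ¬ At G R x y b0 a1 := fun h => (hw b0 (Or.inl hb0)).2 ⟨h, hb3⟩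
    have hP' : PP G R x y = {a3, a2, a1} := by
      rw [hP]
      ext v
      simp only [Finset.mem_insert, Finset.mem_singleton]
      tauto
    refine core pe2 pe4 akey al ak ac ab hc hF hP' h23.symm h13.symm h12.symm (ej_symm e23)
      (ej_symm e12) (fun w hw' h => (hw w hw').2 ⟨h.2, h.1⟩) ?_
    intro e he h1
    rcases hmid e he with h | h | h
    · exact hb1 ((h a1).mpr h1)
    · exact hb1 h.1
    · exact (hw e (Or.inr he)).2 ⟨h1, h.2⟩
  · refine core pe2 pe4 akey al ak ac ab hc hF hP h12 h13 h23 e12 e23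
      (fun w hw' => (hw w hw').2) ?_
    intro e he h3
    rcases hmid e he with h | h | h
    · exact hb3 ((h a3).mpr h3)
    · exact (hw e (Or.inr he)).2 ⟨h.2, h3⟩
    · exact hb3 h.1

end Pool.Agent.H13.RCQ.A2N
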