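import Pool.Agent.H6.RCQ.Stmts1
import Pool.Agent.H6.RCQ.Stmts2

/-!
# Project RCQ: small tools for Case A (helper13)
-/

set_option autoImplicit false

namespace Pool.Agent.H13.RCQ

open Pool.Agent.H39.RC Pool.Agent.H6.RCQ
open Classical

variable {V : Type} {G : SimpleGraph V} {R : Finset V} {x y : V} {p : ℕ} {lab : V → V → Fin p}

lemma mem_cn {v : V} : v ∈ CN G R x y ↔ v ∈ R ∧ G.Adj x v ∧ G.Adj y v := by
  simp [CN]

lemma mem_pb {v : V} : v ∈ PB G R x y ↔ v ∈ R ∧ G.Adj x v ∧ ¬ G.Adj y v ∧ v ≠ y := by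
  simp [PB]

lemma mem_xx {P Q : Set V} {S : Finset V} {v : V} : v ∈ XX P Q S ↔ v ∈ P ∨ v ∈ Q ∨ v ∈ S := by
  simp [XX, or_assoc]

lemma mem_x {v : V} : v ∈ XX {x} {y} (CN G R x y) ↔ v = x ∨ v = y ∨ v ∈ CN G R x y := by
  rw [mem_xx, Set.mem_singleton_iff, Set.mem_singleton_iff]

lemma pb_nx {v : V} (h : v ∈ PB G R x y) : v ∉ XX {x} {y} (CN G R x y) := by
  rw [mem_pb] at h
  obtain ⟨_, h1, h2, h3⟩ := h
  rw [mem_x]
  rintro (h | h | h)
  · exact h1.ne h.symm
  · exact h3 h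
  · exact h2 (mem_cn.mp h).2.2

lemma pb_nx' {v : V} (h : v ∈ PB G R y x) : v ∉ XX {x} {y} (CN G R x y) := by
  rw [mem_pb] at h
  obtain ⟨_, h1, h2, h3⟩ := h
  rw [mem_x]
  rintro (h | h | h)
  · exact h3 h
  · exact h1.ne h.symm
  · exact h2 (mem_cn.mp h).2.1

lemma be_nx {v : V} (h : v ∈ PB G R x y ∨ v ∈ PB G R y x) : v ∉ XX {x} {y} (CN G R x y) := by
  rcases h with h | h
  · exact pb_nx h
  · exact pb_nx' h

lemma ej_symm {P Q : Set V} {S : Finset V} {s t : V} (h : EJ G P Q S s t) : EJ G P Q S t s := by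
  obtain ⟨h1, h2, h3, h4⟩ := h
  refine ⟨h2, h1, h3.symm, ?_⟩
  rcases h4 with h4 | ⟨v, h5, h6⟩
  · exact Or.inl h4.symm
  · exact Or.inr ⟨v, h6, h5⟩

lemma ej_of_adj {P Q : Set V} {S : Finset V} {s t : V} (hs : s ∈ S) (ht : t ∈ S)
    (h : G.Adj s t) : EJ G P Q S s t := ⟨hs, ht, h.ne, Or.inl h⟩

lemma pol_cn (hxy : x ≠ y) : Pol G {x} {y} (CN G R x y) := by
  refine ⟨con_single x, con_single y, ?_, ?_, ?_, ?_, ?_⟩
  · simpa using hxy
  · intro s hs h
    have := (mem_cn.mp hs).2.1.ne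
    exact this h.symm
  · intro s hs h
    have := (mem_cn.mp hs).2.2.ne
    exact this h.symm
  · exact fun s hs => ⟨x, rfl, (mem_cn.mp hs).2.1⟩
  · exact fun s hs => ⟨y, rfl, (mem_cn.mp hs).2.2⟩

lemma at_adj {w a : V} (hw : w ∉ XX {x} {y} (CN G R x y)) (h : G.Adj w a) : At G R x y w a :=
  lnk_adj hw h

lemma at_cons {w v a : V} (hw : w ∉ XX {x} {y} (CN G R x y)) (h : G.Adj w v)
    (ha : At G R x y v a) : At G R x y w a := lnk_cons hw h ha

/-- how a private neighbour of `x` is linked to a common neighbour to which it is not attached -/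
lemma link_b (hc : CA p G lab R x y) {b a : V} (hb : b ∈ PB G R x y) (ha : a ∈ CN G R x y)
    (hn : ¬ At G R x y b a) :
    lab x b ≠ lab x a ∨ ∃ h ∈ CN G R x y, G.Adj b h ∧ G.Adj h a := by
  have hbx := pb_nx hb
  have hb' := mem_pb.mp hb
  have ha' := mem_cn.mp ha
  have hne : b ≠ a := by
    rintro rfl
    exact hb'.2.2.1 ha'.2.2
  rcases hc.cfg.lk b hb'.1 a ha'.1 hne with h | ⟨w, _, h1, h2, h3⟩
  · exact absurd (at_adj hbx h) hn
  · by_cases hwx : w ∈ XX {x} {y} (CN G R x y)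
    · rw [mem_x] at hwx
      rcases hwx with rfl | rfl | hwx
      · exact Or.inl h3
      · exact absurd h1 hb'.2.2.1
      · exact Or.inr ⟨w, hwx, h1.symm, h2⟩
    · exact absurd (at_cons hbx h1.symm (at_adj hwx h2)) hn

/-- how a private neighbour of `y` is linked to a common neighbour to which it is not attached -/
lemma link_e (hc : CA p G lab R x y) {e a : V} (he : e ∈ PB G R y x) (ha : a ∈ CN G R x y)
    (hn : ¬ At G R x y e a) :
    lab y e ≠ lab y a ∨ ∃ h ∈ CN G R x y, G.Adj e h ∧ G.Adj h a := by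
  have hbx := pb_nx' he
  have hb' := mem_pb.mp he
  have ha' := mem_cn.mp ha
  have hne : e ≠ a := by
    rintro rfl
    exact hb'.2.2.1 ha'.2.1
  rcases hc.cfg.lk e hb'.1 a ha'.1 hne with h | ⟨w, _, h1, h2, h3⟩
  · exact absurd (at_adj hbx h) hn
  · by_cases hwx : w ∈ XX {x} {y} (CN G R x y)
    · rw [mem_x] at hwx
      rcases hwx with rfl | rfl | hwx
      · exact absurd h1 hb'.2.2.1
      · exact Or.inl h3
      · exact Or.inr ⟨w, hwx, h1.symm, h2⟩
    · exact absurd (at_cons hbx h1.symm (at_adj hwx h2)) hn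

/-- common neighbours attached to a private neighbour are in `PP` -/
lemma mem_pp_of_at {w a : V} (hw : w ∈ PB G R x y ∨ w ∈ PB G R y x) (ha : a ∈ CN G R x y)
    (h : At G R x y w a) : a ∈ PP G R x y := by
  simp only [PP, Finset.mem_filter]
  exact ⟨ha, w, hw, h⟩

lemma pp_sub {a : V} (h : a ∈ PP G R x y) : a ∈ CN G R x y := (Finset.mem_filter.mp h).1

lemma pp_at {a : V} (h : a ∈ PP G R x y) :
    ∃ w, (w ∈ PB G R x y ∨ w ∈ PB G R y x) ∧ At G R x y w a := (Finset.mem_filter.mp h).2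

lemma nn_sub {a : V} (h : a ∈ NN G R x y) : a ∈ CN G R x y := (Finset.mem_filter.mp h).1

lemma nn_adj {a : V} (h : a ∈ NN G R x y) (h' : a ∉ PP G R x y) :
    ∃ a' ∈ PP G R x y, G.Adj a a' := by
  rcases (Finset.mem_filter.mp h).2 with h1 | h1
  · exact absurd h1 h'
  · exact h1

lemma pp_nn {a : V} (h : a ∈ PP G R x y) : a ∈ NN G R x y :=
  Finset.mem_filter.mpr ⟨pp_sub h, Or.inl h⟩

lemma ff_sub {a : V} (h : a ∈ FF G R x y) : a ∈ CN G R x y := (Finset.mem_sdiff.mp h).1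

lemma cn_eq : CN G R x y = NN G R x y ∪ FF G R x y := by
  ext a
  rw [FF, Finset.mem_union, Finset.mem_sdiff]
  constructor
  · intro h
    by_cases h' : a ∈ NN G R x y
    · exact Or.inl h'
    · exact Or.inr ⟨h, h'⟩
  · rintro (h | h)
    · exact nn_sub h
    · exact h.1

lemma cn_card : (CN G R x y).card = (NN G R x y).card + (FF G R x y).card := by
  have h1 : NN G R x y ⊆ CN G R x y := fun a h => nn_sub h
  have h2 := Finset.card_sdiff_add_card_eq_card h1
  rw [FF]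
  omega

lemma ir_le (z : V) : ir R z ≤ 1 := by
  unfold ir
  split <;> omega

/-- two adjacent private neighbours have the same attachments -/
lemma at_iff {w v a : V} (hw : w ∈ PB G R x y ∨ w ∈ PB G R y x)
    (hv : v ∈ PB G R x y ∨ v ∈ PB G R y x) (h : G.Adj w v) :
    At G R x y w a ↔ At G R x y v a :=
  ⟨fun ha => at_cons (be_nx hv) h.symm ha, fun ha => at_cons (be_nx hw) h ha⟩

lemma fin2_eq {a b c : Fin 2} (h1 : a ≠ c) (h2 : b ≠ c) : a = b := by omega

end Pool.Agent.H13.RCQ
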